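import Mathlib.Algebra.Group.Subgroup.Basic
import Mathlib.Algebra.Group.End
import Mathlib.Data.Set.Finite.Lattice
import Mathlib.Data.Finite.Prod
import Mathlib.Data.List.Infix
import Mathlib.Data.Fintype.Basic
import Mathlib.Tactic.Group

/-!
# MP_3790b3_al : finite propagation without finite state

We construct a self-similar action `(G, {0,1})` that is not finite state and such that the
Zappa-Szep product `X* ⋈ G` has finite propagation.  `G` is the conjugate `δ⁻¹ FS δ` of the group
`FS` of all finite-state automorphisms of the binary tree by an automorphism `δ` that is not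
finite state, with sections `δ|₀ = δ`, `δ|₁ = b δ`.
-/

namespace Pool.Agent.Results.MP_3790b3_al.NotFiniteState

/-- A self-similar action of a group `G` on the words over `X`: a faithful action together with
restriction maps. -/
structure SelfSimilarAction (G : Type) [Group G] (X : Type) where
  act : G → List X → List X
  res : G → List X → G
  act_one : ∀ w, act 1 w = w
  act_mul : ∀ g h w, act (g * h) w = act g (act h w)
  faithful : ∀ g h, (∀ w, act g w = act h w) → g = h
  act_nil : ∀ g, act g [] = []
  res_nil : ∀ g, res g [] = g
  act_append : ∀ g u v, act g (u ++ v) = act g u ++ act (res g u) v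
  res_append : ∀ g u v, res g (u ++ v) = res (res g u) v
  res_mul : ∀ g h u, res (g * h) u = res g (act h u) * res h u

/-- The action is finite state. -/
def SelfSimilarAction.FiniteState {G : Type} [Group G] {X : Type}
    (A : SelfSimilarAction G X) : Prop :=
  ∀ g, {k | ∃ w, k = A.res g w}.Finite

/-- The Zappa-Szep product `X* ⋈ G` has finite propagation. -/
def SelfSimilarAction.FinitePropagation {G : Type} [Group G] {X : Type}
    (A : SelfSimilarAction G X) : Prop :=
  ∀ g h : G, ∃ x : List X → G, x [] = 1 ∧
    {k | ∃ w, k = (x (A.act g w))⁻¹ * A.res g w * x w}.Finite ∧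
    {k | ∃ w, k = (x (A.act h w))⁻¹ * A.res h w * x w}.Finite

/-! ### The group of automorphisms of the binary tree -/

/-- Permutations of the set of words that are automorphisms of the tree. -/
def IsAut (f : Equiv.Perm (List Bool)) : Prop :=
  (∀ u, (f u).length = u.length) ∧ ∀ u w, u <+: w → f u <+: f w

theorem IsAut.inv {f : Equiv.Perm (List Bool)} (hf : IsAut f) : IsAut f⁻¹ := by
  have hlen : ∀ u, (f⁻¹ u).length = u.length := by
    intro u
    have := hf.1 (f⁻¹ u)
    rw [← Equiv.Perm.mul_apply, mul_inv_cancel, Equiv.Perm.one_apply] at this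
    exact this.symm
  refine ⟨hlen, ?_⟩
  intro u w huw
  have hw : f (f⁻¹ w) = w := by rw [← Equiv.Perm.mul_apply, mul_inv_cancel]; rfl
  have hu : f (f⁻¹ u) = u := by rw [← Equiv.Perm.mul_apply, mul_inv_cancel]; rfl
  -- the prefix of `f⁻¹ w` of length `|u|`
  have h1 : (f⁻¹ w).take u.length <+: f⁻¹ w := List.take_prefix _ _
  have h2 := hf.2 _ _ h1
  rw [hw] at h2
  have h3 : f ((f⁻¹ w).take u.length) = u := by
    refine (List.prefix_of_prefix_length_le h2 huw ?_).eq_of_length ?_
    · rw [hf.1, List.length_take]; exact min_le_left _ _
    · rw [hf.1, List.length_take, hlen]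
      exact min_eq_left huw.length_le
  have h4 : (f⁻¹ w).take u.length = f⁻¹ u := by
    apply f.injective
    rw [h3, hu]
  rw [← h4]
  exact h1

/-- The automorphism group of the binary tree. -/
def Aut : Subgroup (Equiv.Perm (List Bool)) where
  carrier := {f | IsAut f}
  one_mem' := ⟨fun _ => rfl, fun _ _ h => h⟩
  mul_mem' := fun {f g} hf hg => ⟨fun u => by
    rw [Equiv.Perm.mul_apply, hf.1, hg.1], fun u w h => hf.2 _ _ (hg.2 _ _ h)⟩
  inv_mem' := fun hf => hf.inv

/-- evaluation of a tree automorphism -/
def ev (f : Aut) (w : List Bool) : List Bool := f.1 w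

theorem ev_mul (f g : Aut) (w : List Bool) : ev (f * g) w = ev f (ev g w) := rfl

theorem ev_one (w : List Bool) : ev 1 w = w := rfl

theorem ev_ext {f g : Aut} (h : ∀ w, ev f w = ev g w) : f = g :=
  Subtype.ext (Equiv.ext h)

theorem ev_inv_ev (f : Aut) (w : List Bool) : ev f⁻¹ (ev f w) = w := by
  rw [← ev_mul, inv_mul_cancel, ev_one]

theorem ev_ev_inv (f : Aut) (w : List Bool) : ev f (ev f⁻¹ w) = w := by
  rw [← ev_mul, mul_inv_cancel, ev_one]

theorem ev_length (f : Aut) (w : List Bool) : (ev f w).length = w.length := f.2.1 w

theorem ev_nil (f : Aut) : ev f [] = [] := List.length_eq_zero_iff.1 (ev_length f [])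

/-- The restriction as a function. -/
def resFun (f : Aut) (u v : List Bool) : List Bool := (ev f (u ++ v)).drop u.length

theorem ev_append_fun (f : Aut) (u v : List Bool) : ev f (u ++ v) = ev f u ++ resFun f u v := by
  obtain ⟨w, hw⟩ : ev f u <+: ev f (u ++ v) := f.2.2 u (u ++ v) (List.prefix_append u v)
  rw [resFun, ← hw]
  congr 1
  rw [← ev_length f u, List.drop_left]

theorem resFun_inv (f : Aut) (u v : List Bool) : resFun f⁻¹ (ev f u) (resFun f u v) = v := by
  have h1 : ev f⁻¹ (ev f (u ++ v)) = u ++ v := ev_inv_ev _ _
  rw [ev_append_fun f, ev_append_fun f⁻¹, ev_inv_ev] at h1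
  exact List.append_cancel_left h1

theorem resFun_inv' (f : Aut) (u v : List Bool) : resFun f u (resFun f⁻¹ (ev f u) v) = v := by
  have h1 := resFun_inv f⁻¹ (ev f u) v
  rwa [inv_inv, ev_inv_ev] at h1

/-- The restriction of a tree automorphism. -/
def res (f : Aut) (u : List Bool) : Aut :=
  ⟨⟨resFun f u, resFun f⁻¹ (ev f u), resFun_inv f u, resFun_inv' f u⟩, by
    constructor
    · intro v
      show (resFun f u v).length = v.length
      have h1 := ev_length f (u ++ v)
      rw [ev_append_fun, List.length_append, List.length_append, ev_length] at h1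
      omega
    · intro v w hvw
      show resFun f u v <+: resFun f u w
      obtain ⟨t, rfl⟩ := hvw
      have h1 : ev f (u ++ v) <+: ev f (u ++ v ++ t) := f.2.2 _ _ (List.prefix_append _ _)
      rw [List.append_assoc, ev_append_fun f u, ev_append_fun f u] at h1
      exact (List.prefix_append_right_inj _).1 h1⟩

theorem ev_append (f : Aut) (u v : List Bool) : ev f (u ++ v) = ev f u ++ ev (res f u) v :=
  ev_append_fun f u v

theorem res_unique (f g : Aut) (u : List Bool) (h : ∀ v, ev f (u ++ v) = ev f u ++ ev g v) :
    res f u = g := by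
  refine ev_ext fun v => ?_
  have h1 := h v
  rw [ev_append] at h1
  exact List.append_cancel_left h1

theorem res_nil (f : Aut) : res f [] = f :=
  res_unique f f [] fun v => by rw [ev_nil]; rfl

theorem res_append (f : Aut) (u v : List Bool) : res f (u ++ v) = res (res f u) v :=
  res_unique _ _ _ fun w => by
    rw [List.append_assoc, ev_append, ev_append (res f u), ev_append f u v, List.append_assoc]

theorem res_mul (f g : Aut) (u : List Bool) : res (f * g) u = res f (ev g u) * res g u :=
  res_unique _ _ _ fun v => by
    rw [ev_mul, ev_append, ev_append, ev_mul, ev_mul]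

theorem res_one (u : List Bool) : res 1 u = 1 := res_unique _ _ _ fun _ => rfl

theorem res_inv (f : Aut) (u : List Bool) : res f⁻¹ u = (res f (ev f⁻¹ u))⁻¹ := by
  have h1 := res_mul f⁻¹ f (ev f⁻¹ u)
  rw [inv_mul_cancel, res_one, ev_ev_inv] at h1
  exact eq_inv_of_mul_eq_one_left h1.symm

/-! ### Finite-state automorphisms -/

/-- The group of finite-state automorphisms. -/
def FS : Subgroup Aut where
  carrier := {f | (Set.range (res f)).Finite}
  one_mem' := (Set.finite_singleton (1 : Aut)).subset (by
    rintro _ ⟨u, rfl⟩; exact res_one u)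
  mul_mem' := fun {f g} hf hg => by
    refine (Set.Finite.image2 (fun x y => x * y) hf hg).subset ?_
    rintro _ ⟨u, rfl⟩
    exact ⟨_, ⟨_, rfl⟩, _, ⟨_, rfl⟩, (res_mul f g u).symm⟩
  inv_mem' := fun {f} hf => by
    refine (Set.Finite.image (fun x => x⁻¹) hf).subset ?_
    rintro _ ⟨u, rfl⟩
    exact ⟨_, ⟨_, rfl⟩, (res_inv f u).symm⟩

theorem FS_res {f : Aut} (hf : f ∈ FS) (u : List Bool) : res f u ∈ FS := by
  refine Set.Finite.subset hf ?_
  rintro _ ⟨v, rfl⟩
  exact ⟨u ++ v, res_append f u v⟩

/-! ### Three automorphisms -/

/-- the odometer -/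
def aF : List Bool → List Bool
  | [] => []
  | false :: w => true :: w
  | true :: w => false :: aF w

/-- the inverse of the odometer -/
def aI : List Bool → List Bool
  | [] => []
  | true :: w => false :: w
  | false :: w => true :: aI w

/-- `b = (a, b)` -/
def bF : List Bool → List Bool
  | [] => []
  | false :: w => false :: aF w
  | true :: w => true :: bF w

/-- the inverse of `b` -/
def bI : List Bool → List Bool
  | [] => []
  | false :: w => false :: aI w
  | true :: w => true :: bI w

/-- `δ = (δ, b δ)` -/
def dF : List Bool → List Bool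
  | [] => []
  | false :: w => false :: dF w
  | true :: w => true :: bF (dF w)

theorem aIF (w : List Bool) : aI (aF w) = w := by
  induction w with
  | nil => rfl
  | cons x w ih => cases x <;> simp [aF, aI, ih]

theorem aFI (w : List Bool) : aF (aI w) = w := by
  induction w with
  | nil => rfl
  | cons x w ih => cases x <;> simp [aF, aI, ih]

theorem bIF (w : List Bool) : bI (bF w) = w := by
  induction w with
  | nil => rfl
  | cons x w ih => cases x <;> simp [bF, bI, ih, aIF]

theorem bFI (w : List Bool) : bF (bI w) = w := by
  induction w with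
  | nil => rfl
  | cons x w ih => cases x <;> simp [bF, bI, ih, aFI]

theorem aF_length (w : List Bool) : (aF w).length = w.length := by
  induction w with
  | nil => rfl
  | cons x w ih => cases x <;> simp [aF, ih]

theorem bF_length (w : List Bool) : (bF w).length = w.length := by
  induction w with
  | nil => rfl
  | cons x w ih => cases x <;> simp [bF, ih, aF_length]

theorem dF_length (w : List Bool) : (dF w).length = w.length := by
  induction w with
  | nil => rfl
  | cons x w ih => cases x <;> simp [dF, ih, bF_length]

theorem aF_prefix (u w : List Bool) (h : u <+: w) : aF u <+: aF w := by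
  induction u generalizing w with
  | nil => exact List.nil_prefix
  | cons x u ih =>
    obtain ⟨t, rfl⟩ := h
    have := ih (u ++ t) (List.prefix_append _ _)
    cases x with
    | false =>
      show true :: u <+: true :: (u ++ t)
      exact (List.cons_prefix_cons).2 ⟨rfl, List.prefix_append _ _⟩
    | true =>
      show false :: aF u <+: false :: aF (u ++ t)
      exact (List.cons_prefix_cons).2 ⟨rfl, this⟩

theorem bF_prefix (u w : List Bool) (h : u <+: w) : bF u <+: bF w := by
  induction u generalizing w with
  | nil => exact List.nil_prefix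
  | cons x u ih =>
    obtain ⟨t, rfl⟩ := h
    have := ih (u ++ t) (List.prefix_append _ _)
    cases x with
    | false =>
      show false :: aF u <+: false :: aF (u ++ t)
      exact (List.cons_prefix_cons).2 ⟨rfl, aF_prefix _ _ (List.prefix_append _ _)⟩
    | true =>
      show true :: bF u <+: true :: bF (u ++ t)
      exact (List.cons_prefix_cons).2 ⟨rfl, this⟩

theorem dF_prefix (u w : List Bool) (h : u <+: w) : dF u <+: dF w := by
  induction u generalizing w with
  | nil => exact List.nil_prefix
  | cons x u ih =>
    obtain ⟨t, rfl⟩ := h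
    have := ih (u ++ t) (List.prefix_append _ _)
    cases x with
    | false =>
      show false :: dF u <+: false :: dF (u ++ t)
      exact (List.cons_prefix_cons).2 ⟨rfl, this⟩
    | true =>
      show true :: bF (dF u) <+: true :: bF (dF (u ++ t))
      exact (List.cons_prefix_cons).2 ⟨rfl, bF_prefix _ _ this⟩

theorem dF_injective : Function.Injective dF := by
  intro u
  induction u with
  | nil =>
    intro v h
    have := congrArg List.length h
    rw [dF_length, dF_length] at this
    exact (List.length_eq_zero_iff.1 this.symm).symm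
  | cons x u ih =>
    intro v h
    cases v with
    | nil =>
      have := congrArg List.length h
      rw [dF_length, dF_length] at this
      simp at this
    | cons y v =>
      cases x <;> cases y <;> simp only [dF, List.cons.injEq] at h
      · rw [ih h.2]
      · exact absurd h.1 (by decide)
      · exact absurd h.1 (by decide)
      · have h2 := congrArg bI h.2
        rw [bIF, bIF] at h2
        rw [ih h2]

theorem dF_surjective : Function.Surjective dF := by
  have key : ∀ n, ∀ w : List Bool, w.length = n → ∃ v, dF v = w := by
    intro n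
    induction n with
    | zero => intro w hw; exact ⟨[], by rw [List.length_eq_zero_iff.1 hw]; rfl⟩
    | succ n ih =>
      intro w hw
      cases w with
      | nil => simp at hw
      | cons x w =>
        have hw' : w.length = n := by simpa using hw
        cases x with
        | false =>
          obtain ⟨v, hv⟩ := ih w hw'
          exact ⟨false :: v, by rw [dF, hv]⟩
        | true =>
          have hlen : (bI w).length = n := by
            rw [← bF_length, bFI, hw']
          obtain ⟨v, hv⟩ := ih (bI w) hlen
          exact ⟨true :: v, by rw [dF, hv, bFI]⟩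
  intro w
  exact key _ w rfl

/-- the odometer as an automorphism -/
def a : Aut := ⟨⟨aF, aI, aIF, aFI⟩, aF_length, aF_prefix⟩

/-- `b` as an automorphism -/
def b : Aut := ⟨⟨bF, bI, bIF, bFI⟩, bF_length, bF_prefix⟩

/-- `δ` as an automorphism -/
noncomputable def d : Aut :=
  ⟨Equiv.ofBijective dF ⟨dF_injective, dF_surjective⟩, dF_length, dF_prefix⟩

theorem a_false (w : List Bool) : ev a (false :: w) = true :: w := rfl
theorem a_true (w : List Bool) : ev a (true :: w) = false :: ev a w := rfl
theorem b_false (w : List Bool) : ev b (false :: w) = false :: ev a w := rfl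
theorem b_true (w : List Bool) : ev b (true :: w) = true :: ev b w := rfl
theorem d_false (w : List Bool) : ev d (false :: w) = false :: ev d w := rfl
theorem d_true (w : List Bool) : ev d (true :: w) = true :: ev b (ev d w) := rfl

theorem res_cons (f : Aut) (x : Bool) (u : List Bool) : res f (x :: u) = res (res f [x]) u :=
  res_append f [x] u

theorem res_a_false : res a [false] = 1 := res_unique _ _ _ fun v => by
  rw [List.singleton_append, a_false, a_false]; rfl
theorem res_a_true : res a [true] = a := res_unique _ _ _ fun v => by
  rw [List.singleton_append, a_true, a_true, ev_nil]; rfl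
theorem res_b_false : res b [false] = a := res_unique _ _ _ fun v => by
  rw [List.singleton_append, b_false, b_false, ev_nil]; rfl
theorem res_b_true : res b [true] = b := res_unique _ _ _ fun v => by
  rw [List.singleton_append, b_true, b_true, ev_nil]; rfl
theorem res_d_false : res d [false] = d := res_unique _ _ _ fun v => by
  rw [List.singleton_append, d_false, d_false, ev_nil]; rfl
theorem res_d_true : res d [true] = b * d := res_unique _ _ _ fun v => by
  rw [List.singleton_append, d_true, d_true, ev_nil, ev_nil]; rfl

theorem a_mem : a ∈ FS := by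
  refine ((Set.finite_singleton (1 : Aut)).insert a).subset ?_
  rintro _ ⟨u, rfl⟩
  induction u with
  | nil => left; exact res_nil a
  | cons x u ih =>
    rw [res_cons]
    cases x with
    | false => rw [res_a_false, res_one]; right; rfl
    | true => rw [res_a_true]; exact ih

theorem b_mem : b ∈ FS := by
  have ha : (Set.range (res a)).Finite := a_mem
  refine (ha.insert b).subset ?_
  rintro _ ⟨u, rfl⟩
  induction u with
  | nil => left; exact res_nil b
  | cons x u ih =>
    rw [res_cons]
    cases x with
    | false => rw [res_b_false]; right; exact ⟨u, rfl⟩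
    | true => rw [res_b_true]; exact ih

/-- `δ|_w = y_w δ` -/
noncomputable def y (w : List Bool) : Aut := res d w * d⁻¹

theorem res_d (w : List Bool) : res d w = y w * d := by rw [y, inv_mul_cancel_right]

theorem y_false (w : List Bool) : y (false :: w) = y w := by
  rw [y, res_cons, res_d_false]; rfl

theorem y_true (w : List Bool) : y (true :: w) = res b (ev d w) * y w := by
  rw [y, res_cons, res_d_true, res_mul, y, mul_assoc]

theorem y_mem (w : List Bool) : y w ∈ FS := by
  induction w with
  | nil => rw [y, res_nil, mul_inv_cancel]; exact FS.one_mem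
  | cons x w ih =>
    cases x with
    | false => rw [y_false]; exact ih
    | true => rw [y_true]; exact FS.mul_mem (FS_res b_mem _) ih

theorem y_nil : y [] = 1 := by rw [y, res_nil, mul_inv_cancel]

/-! ### The group `G = δ⁻¹ FS δ` -/

/-- The group `G`: all `f` with `δ f δ⁻¹` finite state. -/
noncomputable def G : Subgroup Aut := FS.comap (MulAut.conj d).toMonoidHom

theorem mem_G (f : Aut) : f ∈ G ↔ d * f * d⁻¹ ∈ FS := Iff.rfl

theorem res_formula (f : Aut) (w : List Bool) :
    res f w = d⁻¹ * ((y (ev f w))⁻¹ * res (d * f * d⁻¹) (ev d w) * y w) * d := by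
  have h1 : res (d * f * d⁻¹) (ev d w) * res d w = res d (ev f w) * res f w := by
    rw [← res_mul, ← res_mul, inv_mul_cancel_right]
  rw [res_d, res_d] at h1
  have h2 : d⁻¹ * ((y (ev f w))⁻¹ * res (d * f * d⁻¹) (ev d w) * y w) * d =
      d⁻¹ * (y (ev f w))⁻¹ * (res (d * f * d⁻¹) (ev d w) * (y w * d)) := by group
  rw [h2, h1]
  group

theorem res_mem_G {f : Aut} (hf : f ∈ G) (w : List Bool) : res f w ∈ G := by
  rw [mem_G, res_formula f w]
  have h1 : d * (d⁻¹ * ((y (ev f w))⁻¹ * res (d * f * d⁻¹) (ev d w) * y w) * d) * d⁻¹ =
      (y (ev f w))⁻¹ * res (d * f * d⁻¹) (ev d w) * y w := by group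
  rw [h1]
  exact FS.mul_mem (FS.mul_mem (FS.inv_mem (y_mem _)) (FS_res hf _)) (y_mem _)

/-- The self-similar action of `G`. -/
noncomputable def A : SelfSimilarAction G Bool where
  act g w := ev g.1 w
  res g w := ⟨res g.1 w, res_mem_G g.2 w⟩
  act_one _ := rfl
  act_mul _ _ _ := rfl
  faithful _ _ hgh := Subtype.ext (ev_ext hgh)
  act_nil g := ev_nil g.1
  res_nil g := Subtype.ext (res_nil g.1)
  act_append g u v := ev_append g.1 u v
  res_append g u v := Subtype.ext (res_append g.1 u v)
  res_mul g h u := Subtype.ext (res_mul g.1 h.1 u)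

theorem finitePropagation : A.FinitePropagation := by
  have hmem : ∀ k ∈ FS, d⁻¹ * k * d ∈ G := by
    intro k hk
    rw [mem_G]
    have : d * (d⁻¹ * k * d) * d⁻¹ = k := by group
    rw [this]
    exact hk
  let x : List Bool → G := fun w => ⟨d⁻¹ * (y w)⁻¹ * d, hmem _ (FS.inv_mem (y_mem w))⟩
  have hx : x [] = 1 := by
    apply Subtype.ext
    show d⁻¹ * (y [])⁻¹ * d = 1
    rw [y_nil]
    group
  have hfin : ∀ g : G, {k | ∃ w, k = (x (A.act g w))⁻¹ * A.res g w * x w}.Finite := by
    intro g
    have h1 : (Set.range (res (d * g.1 * d⁻¹))).Finite := g.2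
    have h2 : (Subtype.val '' {k | ∃ w, k = (x (A.act g w))⁻¹ * A.res g w * x w}).Finite := by
      refine (h1.image (fun k => d⁻¹ * k * d)).subset ?_
      rintro _ ⟨_, ⟨w, rfl⟩, rfl⟩
      refine ⟨_, ⟨ev d w, rfl⟩, ?_⟩
      show d⁻¹ * res (d * g.1 * d⁻¹) (ev d w) * d =
        (d⁻¹ * (y (ev g.1 w))⁻¹ * d)⁻¹ * res g.1 w * (d⁻¹ * (y w)⁻¹ * d)
      rw [res_formula g.1 w]
      group
    exact h2.of_finite_image Subtype.val_injective.injOn
  intro g h
  exact ⟨x, hx, hfin g, hfin h⟩

/-! ### The action is not finite state -/

theorem a_sq (x : Bool) (w : List Bool) : ev (a ^ 2) (x :: w) = x :: ev a w := by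
  rw [pow_two, ev_mul]
  cases x with
  | false => rw [a_false, a_true]
  | true => rw [a_true, a_false]

theorem a_even (n : ℕ) (x : Bool) (w : List Bool) :
    ev (a ^ (2 * n)) (x :: w) = x :: ev (a ^ n) w := by
  induction n with
  | zero => rfl
  | succ n ih =>
    rw [Nat.mul_succ, add_comm, pow_add, ev_mul, ih, a_sq, pow_succ', ev_mul]

theorem a_pow_ne_one : ∀ n : ℕ, 0 < n → a ^ n ≠ 1 := by
  intro n
  induction n using Nat.strong_induction_on with
  | _ n ih =>
    intro hn h
    rcases Nat.even_or_odd' n with ⟨m, rfl | rfl⟩
    · have hm : 0 < m := by omega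
      refine ih m (by omega) hm (ev_ext fun w => ?_)
      have h1 := a_even m false w
      rw [h, ev_one, List.cons.injEq] at h1
      rw [← h1.2, ev_one]
    · have h1 : ev (a ^ (2 * m + 1)) [false] = [false] := by rw [h]; rfl
      rw [pow_succ', ev_mul, a_even, ev_nil, a_false] at h1
      exact absurd h1 (by decide)

theorem b_pow_false (n : ℕ) (w : List Bool) : ev (b ^ n) (false :: w) = false :: ev (a ^ n) w := by
  induction n with
  | zero => rfl
  | succ n ih => rw [pow_succ', ev_mul, ih, b_false, pow_succ', ev_mul]

theorem b_pow_injective : Function.Injective fun n : ℕ => b ^ n := by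
  have key : ∀ i j : ℕ, i < j → b ^ i ≠ b ^ j := by
    intro i j hij h
    have h1 : b ^ (j - i) = 1 := by
      have h2 : b ^ i * b ^ (j - i) = b ^ i := by rw [← pow_add, h]; congr 1; omega
      exact mul_eq_left.1 h2
    refine a_pow_ne_one (j - i) (by omega) (ev_ext fun w => ?_)
    have h3 := b_pow_false (j - i) w
    rw [h1, ev_one, List.cons.injEq] at h3
    rw [← h3.2, ev_one]
  intro i j h
  rcases lt_trichotomy i j with hlt | heq | hgt
  · exact absurd h (key i j hlt)
  · exact heq
  · exact absurd h.symm (key j i hgt)

theorem b_ones (n : ℕ) : ev b (List.replicate n true) = List.replicate n true := by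
  induction n with
  | zero => rfl
  | succ n ih => rw [List.replicate_succ, b_true, ih]

theorem res_b_ones (n : ℕ) : res b (List.replicate n true) = b := by
  induction n with
  | zero => exact res_nil b
  | succ n ih => rw [List.replicate_succ, res_cons, res_b_true, ih]

theorem res_a_ones (n : ℕ) : res a (List.replicate n true) = a := by
  induction n with
  | zero => exact res_nil a
  | succ n ih => rw [List.replicate_succ, res_cons, res_a_true, ih]

theorem a_ones (n : ℕ) : ev a (List.replicate n true) = List.replicate n false := by
  induction n with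
  | zero => rfl
  | succ n ih => rw [List.replicate_succ, a_true, ih, List.replicate_succ]

theorem d_ones (n : ℕ) : ev d (List.replicate n true) = List.replicate n true := by
  induction n with
  | zero => rfl
  | succ n ih => rw [List.replicate_succ, d_true, ih, b_ones]

theorem d_zeros (n : ℕ) : ev d (List.replicate n false) = List.replicate n false := by
  induction n with
  | zero => rfl
  | succ n ih => rw [List.replicate_succ, d_false, ih]

theorem y_ones (n : ℕ) : y (List.replicate n true) = b ^ n := by
  induction n with
  | zero => rw [pow_zero]; exact y_nil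
  | succ n ih => rw [List.replicate_succ, y_true, d_ones, res_b_ones, ih, pow_succ']

theorem y_zeros (n : ℕ) : y (List.replicate n false) = 1 := by
  induction n with
  | zero => exact y_nil
  | succ n ih => rw [List.replicate_succ, y_false, ih]

theorem not_finiteState : ¬ A.FiniteState := by
  intro h
  have hg : d⁻¹ * a * d ∈ G := by
    rw [mem_G]
    have : d * (d⁻¹ * a * d) * d⁻¹ = a := by group
    rw [this]
    exact a_mem
  have h1 := h ⟨d⁻¹ * a * d, hg⟩
  have h2 : ∀ n : ℕ, res (d⁻¹ * a * d) (List.replicate n true) = d⁻¹ * (a * b ^ n) * d := by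
    intro n
    have h3 : ev (d⁻¹ * a * d) (List.replicate n true) = List.replicate n false := by
      rw [ev_mul, ev_mul, d_ones, a_ones]
      conv_lhs => rw [← d_zeros n]
      exact ev_inv_ev _ _
    have h4 : d * (d⁻¹ * a * d) * d⁻¹ = a := by group
    rw [res_formula, h3, h4, d_ones, res_a_ones, y_zeros, y_ones]
    group
  have hinj : Function.Injective
      fun n : ℕ => A.res ⟨d⁻¹ * a * d, hg⟩ (List.replicate n true) := by
    intro i j hij
    have h3 : res (d⁻¹ * a * d) (List.replicate i true) =
        res (d⁻¹ * a * d) (List.replicate j true) := congrArg Subtype.val hij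
    rw [h2, h2] at h3
    exact b_pow_injective (mul_left_cancel (mul_left_cancel (mul_right_cancel h3)))
  have h5 : (Set.range fun n : ℕ => A.res ⟨d⁻¹ * a * d, hg⟩ (List.replicate n true)).Finite := by
    refine h1.subset ?_
    rintro _ ⟨n, rfl⟩
    exact ⟨_, rfl⟩
  exact Set.infinite_range_of_injective hinj h5

/-- There is a self-similar action `(G, X)` with `X` finite (indeed `X = {0,1}`) that fails to be
finite state while the Zappa-Szep product `X* ⋈ G` has finite propagation. -/
theorem result :
    ∃ (X : Type) (_ : Fintype X) (G : Type) (_ : Group G) (A : SelfSimilarAction G X),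
      ¬ A.FiniteState ∧ A.FinitePropagation :=
  ⟨Bool, inferInstance, G, inferInstance, A, not_finiteState, finitePropagation⟩

end Pool.Agent.Results.MP_3790b3_al.NotFiniteState
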